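import Pool.Agent.W422.GC.Stms
import Pool.Agent.W425.SM.FF
import Pool.Agent.W655.SM.C4K

/-! # The functional kills `kerP v * p(∑ X_j)`: version with heights -/

set_option autoImplicit false

namespace Pool.Agent.W358.GC

open MvPolynomial Pool.Agent.H628R4.TZ Pool.Agent.H628R4.TP MeasureTheory Set Filter Topology
open Pool.Agent.W425.SM Pool.Agent.W422.GC

variable {r N : ℕ}

lemma sum_Y (v : Fin r → Fin N → ℕ) (y0 : Fin r → ℝ) (x : Fin (N + 1) → ℝ) (c : Fin r → ℤ) :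
    ∑ j, (c j : ℝ) * Y (av v) y0 x j = ∑ i : Fin N, (∑ j, (c j : ℝ) * v j i) * x i.succ -
      (∑ j, (c j : ℝ)) * x 0 + ∑ j, (c j : ℝ) * y0 j := by
  have : ∀ j, (c j : ℝ) * Y (av v) y0 x j =
      ∑ i, (c j : ℝ) * v j i * x i.succ - (c j : ℝ) * x 0 + (c j : ℝ) * y0 j := by
    intro j
    rw [Y_av']
    simp only [mul_assoc]
    rw [← Finset.mul_sum]
    ring
  simp only [this]
  rw [Finset.sum_add_distrib, Finset.sum_sub_distrib, ← Finset.sum_mul, Finset.sum_comm]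
  congr 2
  exact Finset.sum_congr rfl fun i _ => by rw [Finset.sum_mul]

/-- the support of the integrand -/
lemma DD_supp (ε : ℝ) (hε : 0 < ε) (κ : Fin r → ℕ) (M : ℕ) (hκ : ∀ j, κ j ≤ M)
    (P : Fin r → Prop) [DecidablePred P] (y : Fin r → ℝ) (q : MvPolynomial (Fin r) ℂ)
    (hne : DD (pk ε κ) y (q * ∏ j, (if P j then X j * dm M j else 1)) ≠ 0) :
    (∀ j, 0 ≤ y j) ∧ ∀ j, P j → y j ≤ ε := by
  classical
  constructor
  · intro j
    by_contra h
    exact hne (DD_neg ε hε κ y j (not_le.1 h) _)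
  · intro j hj
    by_contra h
    apply hne
    have h3 : (X j + C ((κ j : ℕ) : ℂ)) ∣ q * ∏ j, (if P j then X j * dm M j else 1) := by
      refine Dvd.dvd.mul_left ?_ q
      refine (Xdm_dvd M j (κ j) (hκ j)).trans ?_
      have := Finset.dvd_prod_of_mem
        (fun j => (if P j then X j * dm M j else 1 : MvPolynomial (Fin r) ℂ)) (Finset.mem_univ j)
      simpa [hj] using this
    obtain ⟨w, hw⟩ := h3
    rw [hw]
    exact DD_tail ε hε κ y j (not_le.1 h) w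

lemma killedC (v : Fin r → Fin N → ℕ) (ε : ℝ) (hε : 0 < ε) (κ : Fin r → ℕ) (M : ℕ)
    (hκ : ∀ j, κ j ≤ M) (s : ℝ) (y0 : Fin r → ℝ) (c : Fin r → ℤ) (hc : ∑ j, c j = 1)
    (hT : ∑ j, (c j : ℝ) * y0 j < -(ε * ∑ j, |(c j : ℝ)|))
    (S : Finset (Fin N)) (q : MvPolynomial (Fin r) ℂ) (hS : Bc v c ⊆ S) :
    HH v ε κ s y0 S (q * ∏ j, (if c j < 0 then X j * dm M j else 1)) = 0 := by
  classical
  unfold HH
  refine integral_eq_zero_of_ae ?_
  filter_upwards [ae_ms (S.map (Fin.succEmb N))] with x hx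
  obtain ⟨hx0, hxS⟩ := hx
  by_contra hne
  have hne' : DD (pk ε κ) (Y (av v) y0 x) (q * ∏ j, (if c j < 0 then X j * dm M j else 1)) ≠ 0 := by
    intro h
    apply hne
    simp only [Pi.zero_apply]
    rw [h, mul_zero]
  obtain ⟨h1, h2⟩ := DD_supp ε hε κ M hκ (fun j => c j < 0) _ q hne'
  have h4 := sum_Y v y0 x c
  set y := Y (av v) y0 x with hy
  have h3 : -(ε * ∑ j, |(c j : ℝ)|) ≤ ∑ j, (c j : ℝ) * y j := by
    rw [Finset.mul_sum, ← Finset.sum_neg_distrib]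
    refine Finset.sum_le_sum fun j _ => ?_
    rcases lt_or_ge (c j) 0 with h | h
    · have h' : (c j : ℝ) < 0 := by exact_mod_cast h
      rw [abs_of_neg h']
      nlinarith [h2 j h]
    · have h' : (0:ℝ) ≤ c j := by exact_mod_cast h
      rw [abs_of_nonneg h']
      nlinarith [h1 j, mul_nonneg h' (h1 j), mul_nonneg hε.le h']
  have hcR : ∑ j, (c j : ℝ) = 1 := by exact_mod_cast hc
  have h5 : ∑ i : Fin N, (∑ j, (c j : ℝ) * v j i) * x i.succ ≤ 0 := by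
    refine Finset.sum_nonpos fun i _ => ?_
    rcases lt_or_ge 0 (∑ j, c j * (v j i : ℤ)) with h | h
    · have hiS : i ∈ S := hS (by simp [Bc, h])
      rw [hxS i.succ (by simp [hiS]), mul_zero]
    · have h' : (∑ j, (c j : ℝ) * v j i) ≤ 0 := by exact_mod_cast h
      exact mul_nonpos_of_nonpos_of_nonneg h' (hx0 _)
  have h6 := hx0 0
  rw [hcR, one_mul] at h4
  linarith

lemma killedR (v : Fin r → Fin N → ℕ) (ε : ℝ) (hε : 0 < ε) (κ : Fin r → ℕ) (M : ℕ)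
    (hκ : ∀ j, κ j ≤ M) (s : ℝ) (y0 : Fin r → ℝ) (c : Fin r → ℤ) (hc : ∑ j, c j = 0)
    (hc2 : ∀ i, 0 ≤ ∑ j, c j * (v j i : ℤ))
    (hT : ε * ∑ j, |(c j : ℝ)| < ∑ j, (c j : ℝ) * y0 j)
    (S : Finset (Fin N)) (q : MvPolynomial (Fin r) ℂ) :
    HH v ε κ s y0 S (q * ∏ j, (if 0 < c j then X j * dm M j else 1)) = 0 := by
  classical
  unfold HH
  refine integral_eq_zero_of_ae ?_
  filter_upwards [ae_ms (S.map (Fin.succEmb N))] with x hx
  obtain ⟨hx0, hxS⟩ := hx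
  by_contra hne
  have hne' : DD (pk ε κ) (Y (av v) y0 x) (q * ∏ j, (if 0 < c j then X j * dm M j else 1)) ≠ 0 := by
    intro h
    apply hne
    simp only [Pi.zero_apply]
    rw [h, mul_zero]
  obtain ⟨h1, h2⟩ := DD_supp ε hε κ M hκ (fun j => 0 < c j) _ q hne'
  have h4 := sum_Y v y0 x c
  set y := Y (av v) y0 x with hy
  have h3 : ∑ j, (c j : ℝ) * y j ≤ ε * ∑ j, |(c j : ℝ)| := by
    rw [Finset.mul_sum]
    refine Finset.sum_le_sum fun j _ => ?_
    rcases lt_or_ge 0 (c j) with h | h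
    · have h' : (0 : ℝ) < c j := by exact_mod_cast h
      rw [abs_of_pos h']
      nlinarith [h2 j h]
    · have h' : (c j : ℝ) ≤ 0 := by exact_mod_cast h
      have h'' := mul_nonneg hε.le (abs_nonneg (c j : ℝ))
      nlinarith [h1 j, mul_nonneg (neg_nonneg.2 h') (h1 j)]
  have hcR : ∑ j, (c j : ℝ) = 0 := by exact_mod_cast hc
  have h5 : 0 ≤ ∑ i : Fin N, (∑ j, (c j : ℝ) * v j i) * x i.succ := by
    refine Finset.sum_nonneg fun i _ => ?_
    have h' : 0 ≤ (∑ j, (c j : ℝ) * v j i) := by exact_mod_cast hc2 i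
    exact mul_nonneg h' (hx0 _)
  rw [hcR, zero_mul] at h4
  linarith

/-- **The functional kills `k * p(∑ X_j)`.** -/
theorem killsG (v : Fin r → Fin N → ℕ) (p : Polynomial ℂ) (M : ℕ) (Rs Cs : Finset (Fin r → ℤ))
    (w q : (Fin r → ℤ) → MvPolynomial (Fin r) ℂ)
    (hRs : ∀ ρ ∈ Rs, ∑ j, ρ j = 0 ∧ (∀ i, 0 ≤ ∑ j, ρ j * (v j i : ℤ)))
    (hc : ∀ c ∈ Cs, ∑ j, c j = 1)
    (hrel : Polynomial.aeval (∑ j, X j : MvPolynomial (Fin r) ℂ) p *
        (∏ j, dm M j + ∑ ρ ∈ Rs, (∏ j, if 0 < ρ j then X j * dm M j else 1) * w ρ) =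
      ∑ c ∈ Cs, (∏ i ∈ Bc v c, el v i) * ((∏ j, if c j < 0 then X j * dm M j else 1) * q c))
    (k : MvPolynomial (Fin r) ℂ)
    (hk : ∀ (κ : Fin r → ℕ) (i : Fin N), ∑ j, κ j * v j i = 1 →
      k ∈ Ideal.span {p : MvPolynomial (Fin r) ℂ | ∃ j, 0 < v j i ∧ p = X j + C ((κ j : ℕ) : ℂ)}) :
    ∃ s0 : ℝ, 0 < s0 ∧ ∀ ε > 0, ∀ y0 : Fin r → ℝ,
      (∀ c ∈ Cs, ∑ j, (c j : ℝ) * y0 j < -(ε * ∑ j, |(c j : ℝ)|)) →
      (∀ c ∈ Rs, ε * ∑ j, |(c j : ℝ)| < ∑ j, (c j : ℝ) * y0 j) → ∀ s : ℝ, s0 ≤ s →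
      Φ (ph ε) ∅ (lm (N := N) s) (av v) y0
        (k * Polynomial.aeval (∑ j, X j : MvPolynomial (Fin r) ℂ) p) = 0 := by
  classical
  obtain ⟨cf, hcf⟩ := DD_sum (r := r) M
  set KK := Fintype.piFinset (fun _ : Fin r => Finset.range (M+1)) with hKK
  refine ⟨(∑ κ ∈ KK, (Lam v κ : ℝ)) + 1, by positivity, fun ε hε y0 hT hT2 s hs => ?_⟩
  have hzero : ∀ κ ∈ KK, HH v ε κ s y0 ∅
      ((k * Polynomial.aeval (∑ j, X j : MvPolynomial (Fin r) ℂ) p) * ∏ j, dm M j) = 0 ∧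
      Gd v ε κ ∅ ((k * Polynomial.aeval (∑ j, X j : MvPolynomial (Fin r) ℂ) p) * ∏ j, dm M j) ∧
      (Lam v κ : ℝ) + 1 ≤ s := by
    intro κ hκ
    have hκM : ∀ j, κ j ≤ M := fun j => by
      have := (Fintype.mem_piFinset.1 hκ) j
      rw [Finset.mem_range] at this
      omega
    have hs' : (Lam v κ : ℝ) + 1 ≤ s := by
      refine le_trans ?_ hs
      have := Finset.single_le_sum (f := fun κ : Fin r → ℕ => (Lam v κ : ℝ))
        (fun _ _ => Nat.cast_nonneg _) hκ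
      linarith
    have hGd : Gd v ε κ ∅
        ((k * Polynomial.aeval (∑ j, X j : MvPolynomial (Fin r) ℂ) p) * ∏ j, dm M j) := by
      intro i _ hi
      have h1 : ∃ j, 0 < κ j * v j i := by
        by_contra hcon
        push Not at hcon
        have : ell v κ i = 0 := Finset.sum_eq_zero fun j _ => Nat.le_zero.1 (hcon j)
        omega
      obtain ⟨j, hj⟩ := h1
      have hj1 : 0 < κ j := Nat.pos_of_mul_pos_right hj
      have hj2 : 0 < v j i := Nat.pos_of_mul_pos_left hj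
      refine (goodDir_lin hε (κ := κ) j hj2).of_dvd ?_
      refine Dvd.dvd.mul_left ?_ _
      exact (dm_dvd M j (κ j) hj1 (hκM j)).trans (Finset.dvd_prod_of_mem _ (Finset.mem_univ j))
    refine ⟨?_, hGd, hs'⟩
    set L : List (Fin N) := (Finset.univ.filter fun i => 2 ≤ ell v κ i).toList with hL
    have hLnd : L.Nodup := Finset.nodup_toList _
    have hLell : ∀ i ∈ L, ell v κ i ≠ 1 := fun i hi => by
      have : 2 ≤ ell v κ i := by simpa [hL] using hi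
      omega
    have hkgood : ∀ i, i ∉ L → 0 < ell v κ i → GoodDir v ε κ i k := by
      intro i hi h
      have h1 : ell v κ i = 1 := by
        have : ¬ 2 ≤ ell v κ i := fun h' => hi (by simp [hL, h'])
        omega
      have h2 := hk κ i h1
      rw [← Submodule.mem_toAddSubmonoid, ] at h2
      refine Submodule.span_induction (p := fun x _ => GoodDir v ε κ i x) ?_ ?_ ?_ ?_
        (by simpa [Ideal.span] using h2)
      · rintro x ⟨j, hj, rfl⟩
        exact goodDir_lin hε j hj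
      · exact GoodDir.zero
      · intro x y _ _ hx hy
        exact hx.add hy
      · intro a x _ hx
        exact hx.mul_left a
    rw [← FF_eq v ε hε κ s hs' _ L ∅ _ (by simp) hLnd hLell hGd]
    have h3 : (k * Polynomial.aeval (∑ j, X j : MvPolynomial (Fin r) ℂ) p) * ∏ j, dm M j =
        ∑ c ∈ Cs, (∏ i ∈ Bc v c, el v i) *
          ((k * q c) * ∏ j, (if c j < 0 then X j * dm M j else 1)) -
        ∑ ρ ∈ Rs, (k * Polynomial.aeval (∑ j, X j : MvPolynomial (Fin r) ℂ) p * w ρ) *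
          ∏ j, (if 0 < ρ j then X j * dm M j else 1) := by
      have e1 : ∑ c ∈ Cs, (∏ i ∈ Bc v c, el v i) *
          ((k * q c) * ∏ j, (if c j < 0 then X j * dm M j else 1)) =
          k * ∑ c ∈ Cs, (∏ i ∈ Bc v c, el v i) *
            ((∏ j, if c j < 0 then X j * dm M j else 1) * q c) := by
        rw [Finset.mul_sum]
        exact Finset.sum_congr rfl fun c _ => by ring
      have e2 : ∑ ρ ∈ Rs, (k * Polynomial.aeval (∑ j, X j : MvPolynomial (Fin r) ℂ) p * w ρ) *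
          ∏ j, (if 0 < ρ j then X j * dm M j else 1) =
          k * Polynomial.aeval (∑ j, X j : MvPolynomial (Fin r) ℂ) p *
            ∑ ρ ∈ Rs, (∏ j, if 0 < ρ j then X j * dm M j else 1) * w ρ := by
        rw [Finset.mul_sum]
        exact Finset.sum_congr rfl fun c _ => by ring
      rw [e1, e2, ← hrel]
      ring
    have hH1 : ∀ c, Hyp v ε κ L ∅ ((k * q c) * ∏ j, (if c j < 0 then X j * dm M j else 1)) :=
      fun c i _ h1 h2 => ((hkgood i h1 h2).mul_right _).mul_right _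
    have hH2 : ∀ ρ : Fin r → ℤ, Hyp v ε κ L ∅
        ((k * Polynomial.aeval (∑ j, X j : MvPolynomial (Fin r) ℂ) p * w ρ) *
          ∏ j, (if 0 < ρ j then X j * dm M j else 1)) :=
      fun ρ i _ h1 h2 => (((hkgood i h1 h2).mul_right _).mul_right _).mul_right _
    have hH1' : ∀ c, Hyp v ε κ L ∅ ((∏ i ∈ Bc v c, el v i) *
        ((k * q c) * ∏ j, (if c j < 0 then X j * dm M j else 1))) :=
      fun c => (hH1 c).mul_left _
    have hHs : ∀ (T : Finset (Fin r → ℤ)) (P : (Fin r → ℤ) → MvPolynomial (Fin r) ℂ),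
        (∀ c, Hyp v ε κ L ∅ (P c)) → Hyp v ε κ L ∅ (∑ c ∈ T, P c) := by
      intro T P hP i h1 h2 h3
      refine Finset.sum_induction _ (fun x => GoodDir v ε κ i x) (fun a b ha hb => ha.add hb)
        GoodDir.zero fun c _ => hP c i h1 h2 h3
    rw [h3, FF_sub v ε hε κ s hs' _ L ∅ _ _ (hHs _ _ hH1') (hHs _ _ hH2),
      FF_sum v ε hε κ s hs' _ _ L ∅ _ (fun c _ => hH1' c),
      FF_sum v ε hε κ s hs' _ _ L ∅ _ (fun c _ => hH2 c)]
    have hz1 : ∑ c ∈ Cs, FF v ε κ s y0 L ∅ ((∏ i ∈ Bc v c, el v i) *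
        ((k * q c) * ∏ j, (if c j < 0 then X j * dm M j else 1))) = 0 := by
      refine Finset.sum_eq_zero fun c hcc => ?_
      obtain ⟨L', hL'⟩ := FF_steps v ε hε κ s hs' y0 (Bc v c) L ∅ _
        (Finset.disjoint_empty_right _) hLnd hLell (hH1 c)
      rw [hL', Finset.union_empty]
      refine FF_kill v ε κ s _ _ (Bc v c) (fun S q' hS => ?_) L' _ _ subset_rfl
      exact killedC v ε hε κ M hκM s y0 c (hc c hcc) (hT c hcc) S q' hS
    have hz2 : ∑ ρ ∈ Rs, FF v ε κ s y0 L ∅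
        ((k * Polynomial.aeval (∑ j, X j : MvPolynomial (Fin r) ℂ) p * w ρ) *
          ∏ j, (if 0 < ρ j then X j * dm M j else 1)) = 0 := by
      refine Finset.sum_eq_zero fun c hcc => ?_
      refine FF_kill v ε κ s _ _ ∅ (fun S q' hS => ?_) L _ _ subset_rfl
      exact killedR v ε hε κ M hκM s y0 c (hRs c hcc).1 (hRs c hcc).2 (hT2 c hcc) S q'
    rw [hz1, hz2, sub_zero]
  have hfin : Φ (ph ε) ∅ (lm (N := N) s) (av v) y0
        (k * Polynomial.aeval (∑ j, X j : MvPolynomial (Fin r) ℂ) p) =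
      ∑ κ ∈ KK, (∏ j, cf (κ j)) * HH v ε κ s y0 ∅
        ((k * Polynomial.aeval (∑ j, X j : MvPolynomial (Fin r) ℂ) p) * ∏ j, dm M j) := by
    unfold Φ HH
    simp only [← integral_const_mul]
    rw [Finset.map_empty, ← integral_finsetSum]
    · refine integral_congr_ae (Eventually.of_forall fun x => ?_)
      simp only
      rw [← hcf ε hε, Finset.mul_sum]
      exact Finset.sum_congr rfl fun κ _ => by ring
    · intro κ hκ
      have := HH_integrable v ε hε κ s (hzero κ hκ).2.2 y0 ∅ _ (hzero κ hκ).2.1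
      rw [Finset.map_empty] at this
      exact this.const_mul _
  rw [hfin]
  exact Finset.sum_eq_zero fun κ hκ => by rw [(hzero κ hκ).1, mul_zero]

lemma dl_pos (m : ℕ) : 0 < dl m := by unfold dl; positivity

lemma dl_le (m : ℕ) : dl m ≤ 1 := by
  unfold dl
  rw [div_le_one (by positivity)]
  have : (0 : ℝ) ≤ m := Nat.cast_nonneg _
  linarith

lemma dl_tendsto : Tendsto dl atTop (𝓝 0) := by
  unfold dl
  exact tendsto_one_div_add_atTop_nhds_zero_nat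

lemma sum_yu (v : Fin r → Fin N → ℕ) (u : Fin r → ℝ) (K α : ℝ) (m : ℕ) (c : Fin r → ℤ) :
    ∑ j, (c j : ℝ) * yu v u K α m j = dl m * (-(K * ∑ j, (c j : ℝ)) -
      α * ∑ j, ∑ i, (c j : ℝ) * (v j i : ℝ) + ∑ j, (c j : ℝ) * u j) := by
  rw [mul_add, mul_sub, Finset.mul_sum, Finset.mul_sum, ← Finset.sum_neg_distrib, Finset.mul_sum,
    Finset.mul_sum, Finset.mul_sum, ← Finset.sum_sub_distrib, ← Finset.sum_add_distrib]
  refine Finset.sum_congr rfl fun j _ => ?_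
  unfold yu yz
  rw [← Finset.mul_sum]
  ring

theorem main : Pool.Agent.W422.GC.S_KILL := by
  classical
  intro r N loc v u p hR
  obtain ⟨M, Rs, Cs, w, q, hRs, hc, hrel⟩ := hR
  obtain ⟨s0, hs0, hkill⟩ := killsG v p M Rs Cs w q (fun ρ hρ => ⟨(hRs ρ hρ).1, (hRs ρ hρ).2.1⟩) hc
    hrel (kerP v) (fun κ i h => Pool.Agent.W655.SM.taskK v κ i h)
  refine ⟨1 + ∑ ρ ∈ Rs, |∑ j, (ρ j : ℝ) * u j|, s0, hs0, fun α hα hloc => ?_⟩
  refine ⟨1 + ∑ c ∈ Cs, (|α * ∑ j, ∑ i, (c j : ℝ) * (v j i : ℝ)| + |∑ j, (c j : ℝ) * u j| +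
    ∑ j, |(c j : ℝ)|), fun K hK => ?_⟩
  have hpos : ∀ ρ ∈ Rs, 0 < - (α * ∑ j, ∑ i, (ρ j : ℝ) * (v j i : ℝ)) + ∑ j, (ρ j : ℝ) * u j := by
    intro ρ hρ
    obtain ⟨h1, h2, h3, h4⟩ := hRs ρ hρ
    have hV : ∑ j, ∑ i, (ρ j : ℝ) * (v j i : ℝ) = ((∑ i, ∑ j, ρ j * (v j i : ℤ) : ℤ) : ℝ) := by
      rw [Finset.sum_comm]
      push_cast
      rfl
    by_cases hz : ∀ i, ∑ j, ρ j * (v j i : ℤ) = 0
    · have : ∑ j, ∑ i, (ρ j : ℝ) * (v j i : ℝ) = 0 := by
        rw [hV, Finset.sum_eq_zero fun i _ => hz i, Int.cast_zero]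
      rw [this, mul_zero, neg_zero, zero_add]
      exact h3 hz
    · have hl : loc := by
        by_contra hnl
        exact hz (h4 hnl)
      have hα' := hloc hl
      push Not at hz
      obtain ⟨i, hi⟩ := hz
      have hi' : 1 ≤ ∑ j, ρ j * (v j i : ℤ) := by
        have := h2 i
        omega
      have hV1 : (1 : ℤ) ≤ ∑ i, ∑ j, ρ j * (v j i : ℤ) :=
        hi'.trans (Finset.single_le_sum (f := fun i => ∑ j, ρ j * (v j i : ℤ))
          (fun i _ => h2 i) (Finset.mem_univ i))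
      have hV2 : (1 : ℝ) ≤ ∑ j, ∑ i, (ρ j : ℝ) * (v j i : ℝ) := by
        rw [hV]
        exact_mod_cast hV1
      have hU : |∑ j, (ρ j : ℝ) * u j| ≤ ∑ ρ ∈ Rs, |∑ j, (ρ j : ℝ) * u j| :=
        Finset.single_le_sum (f := fun ρ : Fin r → ℤ => |∑ j, (ρ j : ℝ) * u j|)
          (fun _ _ => abs_nonneg _) hρ
      have hU2 := neg_abs_le (∑ j, (ρ j : ℝ) * u j)
      rw [abs_of_neg hα'] at hα
      nlinarith
  have hev : ∀ᶠ m : ℕ in atTop, ∀ ρ ∈ Rs, dl m * ∑ j, |(ρ j : ℝ)| <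
      - (α * ∑ j, ∑ i, (ρ j : ℝ) * (v j i : ℝ)) + ∑ j, (ρ j : ℝ) * u j := by
    rw [Filter.eventually_all_finset]
    intro ρ hρ
    have h1 := dl_tendsto.mul_const (∑ j, |(ρ j : ℝ)|)
    rw [zero_mul] at h1
    exact h1.eventually_lt_const (hpos ρ hρ)
  filter_upwards [hev] with m hm s hs
  have hd := dl_pos m
  have hd1 := dl_le m
  refine hkill (dl m ^ 2) (by positivity) (yu v u K α m) ?_ ?_ s hs
  · intro c hcc
    rw [sum_yu]
    have hcR : ∑ j, (c j : ℝ) = 1 := by exact_mod_cast hc c hcc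
    rw [hcR, mul_one]
    have h1 := Finset.single_le_sum (f := fun c : Fin r → ℤ =>
      (|α * ∑ j, ∑ i, (c j : ℝ) * (v j i : ℝ)| + |∑ j, (c j : ℝ) * u j| + ∑ j, |(c j : ℝ)|))
      (fun _ _ => by positivity) hcc
    have h2 := neg_abs_le (α * ∑ j, ∑ i, (c j : ℝ) * (v j i : ℝ))
    have h3 := le_abs_self (∑ j, (c j : ℝ) * u j)
    have h4 : 0 ≤ ∑ j, |(c j : ℝ)| := by positivity
    have h5 : -K - α * ∑ j, ∑ i, (c j : ℝ) * (v j i : ℝ) + ∑ j, (c j : ℝ) * u j <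
        -(∑ j, |(c j : ℝ)|) := by linarith
    have h6 : -(dl m ^ 2 * ∑ j, |(c j : ℝ)|) = dl m * (-(dl m * ∑ j, |(c j : ℝ)|)) := by ring
    rw [h6]
    refine mul_lt_mul_of_pos_left (lt_of_lt_of_le h5 ?_) hd
    nlinarith
  · intro ρ hρ
    rw [sum_yu]
    have hcR : ∑ j, (ρ j : ℝ) = 0 := by exact_mod_cast (hRs ρ hρ).1
    rw [hcR, mul_zero, neg_zero, zero_sub, pow_two, mul_assoc]
    exact mul_lt_mul_of_pos_left (hm ρ hρ) hd

end Pool.Agent.W358.GC
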